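import Pool.Agent.Helper57.SJ.Stmts2

/-!
# SK, row ZA
-/

set_option autoImplicit false

namespace Pool.Agent.Helper82.SJ

open Pool.Agent.Helper57.SJ
open Pool.Agent.Helper57.QZ (zA)
open Pool.Agent.Helper57.SI (Kk zz)

theorem st_ZA : ST_ZA := by
  intro A hA
  refine ⟨3, 4, le_refl _, le_refl _, ?_⟩
  intro T hT H hH hHT
  have h1 : 1 ≤ Real.log T := by
    rw [Real.le_log_iff_exp_le (by linarith)]
    have := Real.exp_one_lt_d9
    linarith
  have h0 : 0 ≤ Real.log H := Real.log_nonneg (by linarith)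
  have h2 : Real.log H ≤ Real.log T := Real.log_le_log (by linarith) hHT
  have h3 : Real.log H / (8 * (Kk H : ℝ)) ≤ Real.log H := by
    rcases Nat.eq_zero_or_pos (Kk H) with h | h
    · rw [h]
      simpa using h0
    · apply div_le_self h0
      have : (1 : ℝ) ≤ (Kk H : ℝ) := by exact_mod_cast h
      linarith
  have h4 : Real.log T ≤ Real.log T ^ A := by
    calc Real.log T = Real.log T ^ (1 : ℝ) := (Real.rpow_one _).symm
      _ ≤ Real.log T ^ A := Real.rpow_le_rpow_of_exponent_le h1 (by linarith)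
  unfold zz zA
  apply Nat.floor_mono
  linarith

end Pool.Agent.Helper82.SJ
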